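import Pool.Agent.H12R2.Sep.PlusFin
import Pool.Agent.H12R2.Sep.WinHalf
import Pool.Agent.H988R5.Final
import Pool.Agent.H988R5.Low

/-!
# The four-arm probability of critical bond percolation on `ℤ²`: `c k^(-5/4) ≤ a4 k ≤ C k^(-5/4)`

Upper bound: separation of arms (helper12 and team, `plus_glue`), the plus event is bounded by the
exact formula for the odd cylinder (`H988R5.plus_exponent`), iteration over the scales.
-/

namespace Pool.Agent.H988R6

open H974 H12S Finset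

theorem plus_half : ∃ C : ℝ, 0 < C ∧ ∀ (L m : ℕ), 2 ≤ L → 8 ≤ m → ∀ β : Bool,
    PQ (1/2) (boxE (16 * L * m))
      (fun F => H12S.Plus (4 * L * m) m (16 * L * m) (e0 β) ↑F) ≤
      C * (m:ℝ) ^ (-(5/4) : ℝ) := by
  obtain ⟨C, hC, h⟩ := Pool.Agent.H988R5.plus_exponent
  refine ⟨C, hC, ?_⟩
  intro L m hL hm β
  obtain ⟨t, ht⟩ : ∃ t : ℕ, t = L * m := ⟨_, rfl⟩
  have e4 : 4 * L * m = 4 * t := by rw [ht]; ring
  have e16 : 16 * L * m = 16 * t := by rw [ht]; ring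
  have htm : 2 * m ≤ t := by rw [ht]; exact Nat.mul_le_mul_right _ hL
  rw [e4, e16]
  have hs : Pool.Agent.H988R5.Sz (4 * t) m (16 * t - m - 2) (16 * t) :=
    ⟨by omega, by omega, by omega, by omega, by omega⟩
  have h1 := h (4 * t) m (16 * t - m - 2) (16 * t) hs β (boxE (16 * t)) (by
    rintro ⟨x, y, b⟩ hg
    unfold Pool.Agent.H988R5.XV Pool.Agent.H988R5.XH boxE at hg
    unfold boxE
    simp only [Finset.mem_union] at hg
    cases b
    · simp only [mem_RE_false] at hg ⊢; omega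
    · simp only [mem_RE_true] at hg ⊢; omega)
  refine (show PQ (1/2) (boxE (16 * t))
      (fun F => H12S.Plus (4 * t) m (16 * t) (e0 β) ↑F) ≤ _ from h1).trans ?_
  apply mul_le_mul_of_nonneg_left _ hC.le
  apply Real.rpow_le_rpow_of_nonpos
  · have : 0 < m := by omega
    exact_mod_cast this
  · have : m ≤ 16 * t - m - 2 := by omega
    exact_mod_cast this
  · norm_num

/-- one scale -/
theorem one_scale : ∃ (L M : ℕ) (K η : ℝ), 2 ≤ L ∧ 64 ≤ M ∧ 0 < K ∧ 0 < η ∧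
    η * (192 * L : ℝ) ^ (5/4 : ℝ) ≤ 1 / 4 ∧ ∀ (r : ℕ), 1 ≤ r →
      a4 (1/2) (4 * L * (M * r)) ≤ K * ((M * r : ℕ) : ℝ) ^ (-(5/4) : ℝ) +
        η * a4 (1/2) ((M * r) / 8) := by
  obtain ⟨κ, hκ, hwin⟩ := win_half
  obtain ⟨C, c, hC, hc, hex⟩ := exit_prob2 κ hκ
  obtain ⟨Cp, hCp, hplus⟩ := plus_half
  obtain ⟨L, hL, hLK⟩ := KY_choose_L C c (5/4) hc
  have hL0 : (0:ℝ) < L := by
    have : 0 < L := by omega
    exact_mod_cast this
  obtain ⟨K, hK⟩ : ∃ K : ℝ, K = (192 * L : ℝ) ^ (5/4 : ℝ) := ⟨_, rfl⟩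
  have hK0 : 0 < K := by rw [hK]; positivity
  rw [show (64 * (3 * L : ℕ) : ℝ) = 192 * L by push_cast; ring, ← hK] at hLK
  obtain ⟨M1, M2, N, hM1, hM2, hex2⟩ := hex L (1 / (32 * K)) hL (by positivity)
  obtain ⟨cd, hcd⟩ : ∃ cd : ℕ, cd = (2 * (2 * N + 1)) * (2 * (2 * N + 1)) := ⟨_, rfl⟩
  have hcd0 : (0:ℝ) < cd := by
    have : 0 < cd := by rw [hcd]; positivity
    exact_mod_cast this
  obtain ⟨Mr, c', hMr, hc', hglue⟩ := plus_glue κ hκ L M1 M2 hL hM1 hM2 (1 / (32 * K * cd))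
    (by positivity)
  have ok := okq (q := 1/2) (by norm_num) (by norm_num)
  refine ⟨L, M2 * Mr, 2 * cd * Cp / c', 2 * (3 / (32 * K)), hL, ?_, by positivity, by positivity,
    ?_, ?_⟩
  · calc 64 ≤ M1 := hM1
      _ ≤ M2 := by omega
      _ ≤ M2 * Mr := Nat.le_mul_of_pos_right _ hMr
  · rw [← hK]
    have : 2 * (3 / (32 * K)) * K = 6 / 32 := by field_simp; norm_num
    rw [this]; norm_num
  · intro r' hr'
    obtain ⟨r, hr⟩ : ∃ r : ℕ, r = Mr * r' := ⟨_, rfl⟩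
    obtain ⟨m, hm⟩ : ∃ m : ℕ, m = M2 * r := ⟨_, rfl⟩
    have hmm : M2 * Mr * r' = m := by rw [hm, hr]; ring
    rw [hmm]
    have hr1 : Mr ≤ r := by rw [hr]; exact Nat.le_mul_of_pos_right _ hr'
    have hM2p : 0 < M2 := by omega
    have hmM : M2 ≤ m := by rw [hm]; exact Nat.le_mul_of_pos_right _ (by omega)
    have hm64 : 64 ≤ m := by omega
    have hmr : m / M2 = r := by rw [hm]; exact Nat.mul_div_cancel_left _ hM2p
    have hrpos : 0 < r := by omega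
    have ha8 : 0 ≤ a4 (1/2) (m / 8) := a4_nonneg (by norm_num) (by norm_num) _
    have hcell : ∀ p ∈ prs L m r N, |2 * p.1.2| ≤ (L:ℤ) * M2 + 1 ∧
        |2 * p.2.2| ≤ (L:ℤ) * M2 + 1 := by
      intro p hp
      unfold prs at hp
      rw [Finset.mem_filter] at hp
      obtain ⟨-, g1, g2⟩ := hp
      have hrz : (0:ℤ) < r := by exact_mod_cast hrpos
      have key : ∀ x : ℤ, |2 * (r:ℤ) * x| ≤ ((L * m : ℕ) : ℤ) + (r:ℤ) →
          |2 * x| ≤ (L:ℤ) * M2 + 1 := by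
        intro x hx
        have e1 : |2 * (r:ℤ) * x| = (r:ℤ) * |2 * x| := by
          rw [show 2 * (r:ℤ) * x = (r:ℤ) * (2 * x) by ring, abs_mul, abs_of_pos hrz]
        have e2 : ((L * m : ℕ) : ℤ) + (r:ℤ) = (r:ℤ) * ((L:ℤ) * M2 + 1) := by
          rw [hm]; push_cast; ring
        rw [e1, e2] at hx
        exact le_of_mul_le_mul_left hx hrz
      exact ⟨key _ g1, key _ g2⟩
    have hβ : ∀ β : Bool, a4b (1/2) (4 * L * m) β ≤
        cd * (Cp / c' * (m:ℝ) ^ (-(5/4) : ℝ)) + 3 / (32 * K) * a4 (1/2) (m / 8) := by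
      intro β
      have s1 : a4b (1/2) (4 * L * m) β ≤ PQ (1/2) (SR L m)
          (fun F => A4 (-(2 * L * m : ℕ)) (2 * L * m : ℕ) (-m) m (e0 β) ↑F) :=
        thin_ge (by norm_num) (by norm_num) hL hm64 (x := 0) (y := 0) (b := β)
          (kc_e0_mem hm64 β)
      have s2 := hex2 (1/2) (4 * L * m) (hwin _) m hmM le_rfl (e0 β) (kc_e0_mem hm64 β)
      rw [hmr] at s2
      have s3 : ∀ p ∈ prs L m r N, PQ (1/2) (SR L m) (fun F =>
          Sev L m r (m / M1) p.1.1 (2 * r * p.1.2) p.2.1 (2 * r * p.2.2) (e0 β) ↑F) ≤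
          Cp / c' * (m:ℝ) ^ (-(5/4) : ℝ) + 1 / (32 * K * cd) * a4 (1/2) (m / 8) := by
        intro p hp
        have g1 := hglue (1/2) (16 * L * m) (hwin _) r m hr1 hm le_rfl p.1.1 p.2.1 p.1.2 p.2.2
          (hcell p hp).1 (hcell p hp).2 β
        have g2 := hplus L m hL (by omega) β
        have g3 := g1.trans g2
        rw [mul_comm, ← le_div_iff₀ hc'] at g3
        have g4 : Cp * (m:ℝ) ^ (-(5/4) : ℝ) / c' = Cp / c' * (m:ℝ) ^ (-(5/4) : ℝ) := by ring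
        rw [g4] at g3
        linarith
      have hcard : ((prs L m r N).card : ℝ) ≤ cd := by
        rw [hcd]
        exact_mod_cast kc_prs_card L m r N
      have s4 : ∑ p ∈ prs L m r N, PQ (1/2) (SR L m) (fun F =>
          Sev L m r (m / M1) p.1.1 (2 * r * p.1.2) p.2.1 (2 * r * p.2.2) (e0 β) ↑F) ≤
          cd * (Cp / c' * (m:ℝ) ^ (-(5/4) : ℝ) + 1 / (32 * K * cd) * a4 (1/2) (m / 8)) := by
        refine (Finset.sum_le_card_nsmul _ _ _ s3).trans ?_
        rw [nsmul_eq_mul]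
        exact mul_le_mul_of_nonneg_right hcard (by positivity)
      have e1 : cd * (1 / (32 * K * cd) * a4 (1/2) (m / 8)) = 1 / (32 * K) * a4 (1/2) (m / 8) := by
        field_simp
      have e2 : C * Real.exp (-c * L) ≤ 1 / (32 * K) := by
        rw [div_mul_eq_div_div, le_div_iff₀ hK0]
        exact hLK
      have e3 : C * Real.exp (-c * L) * a4 (1/2) (m / 8) ≤ 1 / (32 * K) * a4 (1/2) (m / 8) :=
        mul_le_mul_of_nonneg_right e2 ha8
      have e4 : 3 / (32 * K) * a4 (1/2) (m / 8) = 1 / (32 * K) * a4 (1/2) (m / 8) +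
        1 / (32 * K) * a4 (1/2) (m / 8) + 1 / (32 * K) * a4 (1/2) (m / 8) := by ring
      rw [e4]
      have s5 := s1.trans s2
      rw [mul_add, e1] at s4
      rw [add_mul] at s5
      linarith
    have h1 := hβ true
    have h2 := hβ false
    rw [a4_eq]
    have e5 : 2 * cd * Cp / c' * (m:ℝ) ^ (-(5/4) : ℝ) =
      2 * (cd * (Cp / c' * (m:ℝ) ^ (-(5/4) : ℝ))) := by ring
    rw [e5]
    linarith

/-- The four-arm probability of critical bond percolation is at most `C k^(-5/4)`. -/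
theorem a4_up : ∃ C : ℝ, 0 < C ∧ ∀ k : ℕ, 1 ≤ k → a4 (1/2) k ≤ C * (k:ℝ) ^ (-(5/4) : ℝ) := by
  obtain ⟨L, M, K, η, hL, hM, hK, hη, hηL, hstep⟩ := one_scale
  have hL0 : (0:ℝ) < L := by
    have : 0 < L := by omega
    exact_mod_cast this
  obtain ⟨k0, hk0⟩ : ∃ k0 : ℕ, k0 = 8 * L * M := ⟨_, rfl⟩
  have hk0p : 0 < k0 := by rw [hk0]; positivity
  have hk0r : (0:ℝ) < k0 := by exact_mod_cast hk0p
  refine ⟨2 * K * (8 * L : ℝ) ^ (5/4 : ℝ) + 2 * (k0:ℝ) ^ (5/4 : ℝ), by positivity, ?_⟩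
  set C0 : ℝ := 2 * K * (8 * L : ℝ) ^ (5/4 : ℝ) + 2 * (k0:ℝ) ^ (5/4 : ℝ) with hC0
  have hC0p : 0 < C0 := by positivity
  intro k
  induction k using Nat.strong_induction_on with
  | _ k ih =>
    intro hk
    have hkr : (0:ℝ) < k := by exact_mod_cast hk
    rcases lt_or_ge k k0 with hlt | hge
    · have h1 := a4_le_two (q := 1/2) (by norm_num) (by norm_num) k
      have h2 : (1:ℝ) ≤ (k0:ℝ) ^ (5/4 : ℝ) * (k:ℝ) ^ (-(5/4) : ℝ) := by
        rw [Real.rpow_neg hkr.le, ← div_eq_mul_inv, le_div_iff₀ (by positivity), one_mul]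
        exact Real.rpow_le_rpow hkr.le (by exact_mod_cast hlt.le) (by norm_num)
      have h3 : 0 ≤ 2 * K * (8 * L : ℝ) ^ (5/4 : ℝ) * (k:ℝ) ^ (-(5/4) : ℝ) := by positivity
      rw [hC0]
      nlinarith
    · obtain ⟨r, hr⟩ : ∃ r : ℕ, r = k / (4 * L * M) := ⟨_, rfl⟩
      obtain ⟨m, hm⟩ : ∃ m : ℕ, m = M * r := ⟨_, rfl⟩
      have hq : 0 < 4 * L * M := by positivity
      have h1 : 4 * L * M * r ≤ k := by rw [hr]; exact Nat.mul_div_le _ _
      have h2 : k < 4 * L * M * r + 4 * L * M := by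
        rw [hr]
        have := Nat.lt_mul_div_succ k hq
        rw [Nat.mul_add, Nat.mul_one] at this
        exact this
      have hr1 : 1 ≤ r := by
        rw [hr, Nat.le_div_iff_mul_le hq]
        have : k0 = 2 * (4 * L * M) := by rw [hk0]; ring
        omega
      have hLm : 4 * L * m = 4 * L * M * r := by rw [hm]; ring
      have h3 : 4 * L * m ≤ k := by rw [hLm]; exact h1
      have hkm : k ≤ 8 * L * m := by
        have h5 : k0 = 2 * (4 * L * M) := by rw [hk0]; ring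
        have h6 : 8 * L * m = 2 * (4 * L * M * r) := by rw [hm]; ring
        rw [h6]
        have h7 : 4 * L * M * 1 ≤ 4 * L * M * r := Nat.mul_le_mul_left _ hr1
        omega
      have hm64 : 64 ≤ m := by
        rw [hm]
        exact hM.trans (Nat.le_mul_of_pos_right _ hr1)
      have hm0 : (0:ℝ) < m := by
        have : 0 < m := by omega
        exact_mod_cast this
      have h4 := hstep r hr1
      rw [← hm] at h4
      have h5 : a4 (1/2) k ≤ a4 (1/2) (4 * L * m) :=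
        a4_anti (by norm_num) (by norm_num) (by
          have : 0 < 4 * L * m := by positivity
          omega) h3
      have hmk : m < k := by
        have : 1 * m < 4 * L * m := Nat.mul_lt_mul_of_pos_right (by omega) (by omega)
        omega
      have h6 := ih (m / 8) (by omega) (by omega)
      -- m ≥ k/(8L)
      have hmk2 : (k:ℝ) / (8 * L) ≤ m := by
        rw [div_le_iff₀ (by positivity)]
        have : (k:ℝ) ≤ ((8 * L * m : ℕ) : ℝ) := by exact_mod_cast hkm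
        push_cast at this
        linarith
      have h7 : (m:ℝ) ^ (-(5/4) : ℝ) ≤ (8 * L : ℝ) ^ (5/4 : ℝ) * (k:ℝ) ^ (-(5/4) : ℝ) := by
        calc (m:ℝ) ^ (-(5/4) : ℝ) ≤ ((k:ℝ) / (8 * L)) ^ (-(5/4) : ℝ) :=
              Real.rpow_le_rpow_of_nonpos (by positivity) hmk2 (by norm_num)
          _ = (8 * L : ℝ) ^ (5/4 : ℝ) * (k:ℝ) ^ (-(5/4) : ℝ) := by
              rw [Real.div_rpow hkr.le (by positivity), Real.rpow_neg (by positivity) (5/4),
                Real.rpow_neg (show (0:ℝ) ≤ 8 * L by positivity)]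
              field_simp
      have h8 : ((m / 8 : ℕ) : ℝ) ^ (-(5/4) : ℝ) ≤
          (192 * L : ℝ) ^ (5/4 : ℝ) * (k:ℝ) ^ (-(5/4) : ℝ) := by
        have e1 : (k:ℝ) / (192 * L) ≤ ((m / 8 : ℕ) : ℝ) := by
          have e2 : m ≤ 9 * (m / 8) + 0 := by omega
          have e3 : (m:ℝ) ≤ 9 * ((m / 8 : ℕ) : ℝ) := by exact_mod_cast e2
          rw [div_le_iff₀ (by positivity)]
          rw [div_le_iff₀ (by positivity)] at hmk2
          nlinarith
        calc ((m / 8 : ℕ) : ℝ) ^ (-(5/4) : ℝ) ≤ ((k:ℝ) / (192 * L)) ^ (-(5/4) : ℝ) :=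
              Real.rpow_le_rpow_of_nonpos (by positivity) e1 (by norm_num)
          _ = (192 * L : ℝ) ^ (5/4 : ℝ) * (k:ℝ) ^ (-(5/4) : ℝ) := by
              rw [Real.div_rpow hkr.le (by positivity), Real.rpow_neg (by positivity) (5/4),
                Real.rpow_neg (show (0:ℝ) ≤ 192 * L by positivity)]
              field_simp
      have hkp : 0 < (k:ℝ) ^ (-(5/4) : ℝ) := by positivity
      have h9 : η * a4 (1/2) (m / 8) ≤ C0 / 4 * (k:ℝ) ^ (-(5/4) : ℝ) := by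
        calc η * a4 (1/2) (m / 8) ≤ η * (C0 * ((m / 8 : ℕ) : ℝ) ^ (-(5/4) : ℝ)) :=
              mul_le_mul_of_nonneg_left h6 hη.le
          _ ≤ η * (C0 * ((192 * L : ℝ) ^ (5/4 : ℝ) * (k:ℝ) ^ (-(5/4) : ℝ))) := by gcongr
          _ = (η * (192 * L : ℝ) ^ (5/4 : ℝ)) * (C0 * (k:ℝ) ^ (-(5/4) : ℝ)) := by ring
          _ ≤ 1 / 4 * (C0 * (k:ℝ) ^ (-(5/4) : ℝ)) :=
              mul_le_mul_of_nonneg_right hηL (by positivity)
          _ = C0 / 4 * (k:ℝ) ^ (-(5/4) : ℝ) := by ring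
      have h10 : K * (m:ℝ) ^ (-(5/4) : ℝ) ≤ C0 / 2 * (k:ℝ) ^ (-(5/4) : ℝ) := by
        calc K * (m:ℝ) ^ (-(5/4) : ℝ) ≤
              K * ((8 * L : ℝ) ^ (5/4 : ℝ) * (k:ℝ) ^ (-(5/4) : ℝ)) := by gcongr
          _ = (K * (8 * L : ℝ) ^ (5/4 : ℝ)) * (k:ℝ) ^ (-(5/4) : ℝ) := by ring
          _ ≤ C0 / 2 * (k:ℝ) ^ (-(5/4) : ℝ) := by
              apply mul_le_mul_of_nonneg_right _ hkp.le
              have : 0 ≤ (k0:ℝ) ^ (5/4 : ℝ) := by positivity
              rw [hC0]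
              linarith
      calc a4 (1/2) k ≤ a4 (1/2) (4 * L * m) := h5
        _ ≤ K * (m:ℝ) ^ (-(5/4) : ℝ) + η * a4 (1/2) (m / 8) := h4
        _ ≤ C0 / 2 * (k:ℝ) ^ (-(5/4) : ℝ) + C0 / 4 * (k:ℝ) ^ (-(5/4) : ℝ) := add_le_add h10 h9
        _ ≤ C0 * (k:ℝ) ^ (-(5/4) : ℝ) := by
            have := mul_pos hC0p hkp
            linarith

/-- **Four-arm exponent**: the four-arm probability of critical bond percolation on the square
lattice is between `c k^(-5/4)` and `C k^(-5/4)`. -/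
theorem a4_sharp : ∃ c C : ℝ, 0 < c ∧ 0 < C ∧ ∀ k : ℕ, 1 ≤ k →
    c * (k:ℝ) ^ (-(5/4) : ℝ) ≤ a4 (1/2) k ∧ a4 (1/2) k ≤ C * (k:ℝ) ^ (-(5/4) : ℝ) := by
  obtain ⟨c, hc, h1⟩ := Pool.Agent.H988R5.a4_low
  obtain ⟨C, hC, h2⟩ := a4_up
  exact ⟨c, C, hc, hC, fun k hk => ⟨h1 k hk, h2 k hk⟩⟩

end Pool.Agent.H988R6
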