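import Pool.Agent.H988R6.Up
import Pool.Agent.H974R2.Infinite
import Pool.Agent.H12R2.Sep.Key1

/-!
The four-arm probability of critical bond percolation on `ℤ²` in the language of the product
measure on the edges of the infinite lattice.
-/

namespace Pool.Agent.H988R6

open H974 H12S Finset MeasureTheory

theorem a4b_swap (q : ℝ) (k : ℕ) : a4b q k true = a4b q k false := by
  have e1 : boxE k = tps.mp (boxE k) := by
    unfold boxE
    rw [tps_RE]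
  have e2 : a4b q k true = PQ q (boxE k) (fun F => A4 (-k) k (-k) k (e0 true) ↑(tps.mp F)) := by
    unfold a4b
    conv_lhs => rw [e1]
    exact LSym.pr _ _ _ _
  rw [e2]
  unfold a4b
  apply Pr_congr
  intro F _
  rw [LSym.coe_mp]
  have e3 : tps.φ (e0 false) = e0 true := by simp [e0]
  have e4 : (↑(RE (-(k:ℤ)) k (-k) k) : Set Edg) = tps.φ '' ↑(RE (-(k:ℤ)) k (-k) k) := by
    rw [← LSym.coe_mp, tps_RE]
  have e5 : ((tps.φ '' ↑F) ∩ ↑(RE (-(k:ℤ)) k (-k) k)) \ {e0 true} =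
      tps.φ '' ((↑F ∩ ↑(RE (-(k:ℤ)) k (-k) k)) \ {e0 false}) := by
    rw [Set.image_diff tps.φ.injective, Set.image_inter tps.φ.injective, Set.image_singleton,
      e3, ← e4]
  have s1 : src (e0 true) = tps.ψ (src (e0 false)) := rfl
  have s2 : tgt (e0 true) = tps.ψ (tgt (e0 false)) := by
    simp [e0, tgt]
  have bd : ∀ w, w ∈ bdR (-(k:ℤ)) k (-k) k ↔ tps.ψ w ∈ bdR (-(k:ℤ)) k (-k) k := by
    rintro ⟨x, y⟩
    rw [tps_ψ]
    show (inR (-(k:ℤ)) k (-k) k (x, y) ∧ (x = -(k:ℤ) ∨ x = k ∨ y = -(k:ℤ) ∨ y = k)) ↔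
      (inR (-(k:ℤ)) k (-k) k (y, x) ∧ (y = -(k:ℤ) ∨ y = k ∨ x = -(k:ℤ) ∨ x = k))
    unfold inR
    simp only
    omega
  unfold A4
  rw [e5, s1, s2, LSym.reach_iff]
  have key : ∀ u, (∃ w ∈ bdR (-(k:ℤ)) k (-k) k,
      Reach (tps.φ '' ((↑F ∩ ↑(RE (-(k:ℤ)) k (-k) k)) \ {e0 false})) (tps.ψ u) w) ↔
      ∃ w ∈ bdR (-(k:ℤ)) k (-k) k, Reach ((↑F ∩ ↑(RE (-(k:ℤ)) k (-k) k)) \ {e0 false}) u w := by
    intro u
    constructor
    · rintro ⟨w, h1, h2⟩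
      refine ⟨tps.ψ.symm w, ?_, ?_⟩
      · rw [bd, Equiv.apply_symm_apply]; exact h1
      · rw [← LSym.reach_iff tps, Equiv.apply_symm_apply]; exact h2
    · rintro ⟨w, h1, h2⟩
      exact ⟨tps.ψ w, (bd w).mp h1, (LSym.reach_iff tps).mpr h2⟩
  rw [key, key]

theorem a4b_sharp : ∃ c C : ℝ, 0 < c ∧ 0 < C ∧ ∀ k : ℕ, 1 ≤ k →
    c * (k:ℝ) ^ (-(5/4) : ℝ) ≤ a4b (1/2) k true ∧ a4b (1/2) k true ≤ C * (k:ℝ) ^ (-(5/4) : ℝ) := by
  obtain ⟨c, C, hc, hC, h⟩ := a4_sharp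
  refine ⟨c / 2, C / 2, by positivity, by positivity, fun k hk => ?_⟩
  obtain ⟨h1, h2⟩ := h k hk
  have e : a4 (1/2) k = a4b (1/2) k true + a4b (1/2) k false := a4_eq _ _
  rw [← a4b_swap] at e
  constructor
  · nlinarith
  · nlinarith

/-- the edge between `(0,0)` and `(1,0)` -/
theorem fourArm_law (k : ℕ) : (bondLaw hlf).real
    {ω | A4 (-k) k (-k) k (e0 true) (opn ω)} = a4b (1/2) k true := by
  have h : {ω : sqLattice.edgeSet → Bool | A4 (-k) k (-k) k (e0 true) (opn ω)} =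
      {ω | (fun F : Finset Edg => A4 (-(k:ℤ)) k (-k) k (e0 true) ↑F) (FF (boxE k) ω)} := by
    ext ω
    show A4 (-(k:ℤ)) k (-k) k (e0 true) (opn ω) ↔
      A4 (-(k:ℤ)) k (-k) k (e0 true) ↑(FF (boxE k) ω)
    rw [FF_coe]
    unfold A4 boxE
    rw [Set.inter_assoc, Set.inter_self]
  rw [h]
  exact law_event hlf (boxE k) (fun F : Finset Edg => A4 (-(k:ℤ)) k (-k) k (e0 true) ↑F)

end Pool.Agent.H988R6
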